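import Pool.Agent.N703.EV.Core

/-!
# Every sufficient proportion of endvertices is greater than `2/5` (MP_9525dc_co)
-/

set_option autoImplicit false

namespace Pool.Agent.Results.MP_9525dc_co.TwoFifths

open Pool.Agent.N703.EV

/-- Every sufficient `α` satisfies `α > 2/5`; hence `α* ≥ 2/5`. -/
theorem result : ∀ α : ℝ, Sufficient α → 2 / 5 < α :=
  fun α h => main α h

end Pool.Agent.Results.MP_9525dc_co.TwoFifths
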